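import Pool.Agent.Run7.h158.St.Base

/-!
# Subspaces of the Chow rings: definitions
-/

open CategoryTheory AlgebraicGeometry

namespace Run7.h158.St

open Pool.Agent.H914 Pool.Agent.H914.VarClass Pool.Agent.H914.VarClass.Obj Pool.Agent.W492.BB

variable {𝒱 : VarClass ℂ} {C : TheoryData.{0, 0, 0} 𝒱 ℚ} {X Y : 𝒱.Obj}

/-- The classes `x` with `R x` are a graded `ℚ`-subspace of the Chow ring of `X`. -/
structure IsGradedSubspace (C : TheoryData.{0, 0, 0} 𝒱 ℚ) {X : 𝒱.Obj} (R : C.A X → Prop) :
    Prop where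
  zero : R (zero C X)
  add : ∀ x y, R x → R y → R (add C x y)
  smul : ∀ (q : ℚ) x, R x → R (smul C q x)
  graded : ∀ x, R x → ∃ (m : ℕ) (e : Fin m → ℤ) (f : Fin m → C.A X),
    (∀ j, C.Deg (e j) (f j) ∧ R (f j)) ∧ x = sum C f

/-- The class `x` is numerically trivial: the product of `x` with every class has degree zero. -/
def NumTrivial (C : TheoryData.{0, 0, 0} 𝒱 ℚ) {X : 𝒱.Obj} (x : C.A X) : Prop :=
  ∀ z : C.A X, HasDeg C (C.mul x z) 0

/-- `R` is a graded subspace of the Chow ring of `X`, and its only numerically trivial element is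
zero. -/
structure IsFaithful (C : TheoryData.{0, 0, 0} 𝒱 ℚ) {X : 𝒱.Obj} (R : C.A X → Prop) : Prop where
  graded : IsGradedSubspace C R
  faithful : ∀ x, R x → NumTrivial C x → x = zero C X

/-- The subspaces `R` and `R'` of the Chow rings of `X` and `Y` have corresponding classes under the
map `G` of the cohomology: `G (cl R) = cl R'`. -/
structure Matches (H : WeilTheoryData.{0, 0, 0} C ℂ) (G : H.A X → H.A Y) (R : C.A X → Prop)
    (R' : C.A Y → Prop) : Prop where
  fwd : ∀ x, R x → ∃ y, R' y ∧ cl H y = G (cl H x)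
  bwd : ∀ y, R' y → ∃ x, R x ∧ cl H y = G (cl H x)

/-- The correspondences `Z` and `Z'` map the subspaces `R` and `R'` of the Chow rings of `X` and `Y`
to each other, are inverse to each other there, and respect the products which stay in these
subspaces. -/
structure RestrictsTo (C : TheoryData.{0, 0, 0} 𝒱 ℚ) {X Y : 𝒱.Obj} (Z : C.A (X.prod Y))
    (Z' : C.A (Y.prod X)) (R : C.A X → Prop) (R' : C.A Y → Prop) : Prop where
  fwd : ∀ x, R x → R' (C.act Z x)
  bwd : ∀ y, R' y → R (C.act Z' y)
  left : ∀ x, R x → C.act Z' (C.act Z x) = x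
  right : ∀ y, R' y → C.act Z (C.act Z' y) = y
  mul : ∀ x y, R x → R y → R (C.mul x y) → R' (C.mul (C.act Z x) (C.act Z y)) →
    C.act Z (C.mul x y) = C.mul (C.act Z x) (C.act Z y)

/-- The correspondence `Z` from `X` to `Y` has degree zero and acts on the cohomology as `G`. -/
structure Induces (H : WeilTheoryData.{0, 0, 0} C ℂ) (G : H.A X → H.A Y) (Z : C.A (X.prod Y)) :
    Prop where
  deg : C.Deg X.dim Z
  act : ∀ a, act H Z a = G a

/-- The correspondence `Z'` from `Y` to `X` has degree zero and acts on the cohomology as the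
inverse of `G`. -/
structure InducesInverse (H : WeilTheoryData.{0, 0, 0} C ℂ) (G : H.A X → H.A Y)
    (Z' : C.A (Y.prod X)) : Prop where
  deg : C.Deg Y.dim Z'
  act : ∀ a, act H Z' (G a) = a

end Run7.h158.St
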