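import Pool.Agent.Run7.h158.St.Sub

/-!
# Correspondences and filtrations of the Chow groups: definitions
-/

open CategoryTheory AlgebraicGeometry

namespace Run7.h158.St

open Pool.Agent.H914 Pool.Agent.H914.VarClass Pool.Agent.H914.VarClass.Obj Pool.Agent.W492.BB

variable {𝒱 : VarClass ℂ} {C : TheoryData.{0, 0, 0} 𝒱 ℚ} {X Y : 𝒱.Obj}

/-- The filtration `F` of the Chow groups has the properties 1 (without the last one,
`F^(i+1) CH^i = 0`), 3 and 4 of a Bloch-Beilinson filtration: `F^0 CH^i(X) = CH^i(X)`,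
`F^1 CH^i(X)` is the group of homologically trivial cycles, `F^m · F^n ⊆ F^(m+n)`, and pull-backs
and push-forwards respect `F`. -/
structure IsCompatible (H : WeilTheoryData.{0, 0, 0} C ℂ) (F : Filtration C) : Prop where
  zero : ∀ (X : 𝒱.Obj) (i : ℕ) (x : C.A X), F.Mem i 0 x ↔ C.Deg i x
  one : ∀ (X : 𝒱.Obj) (i : ℕ) (x : C.A X),
    F.Mem i 1 x ↔ C.Deg i x ∧ cl H x = St.zero H.toTheoryData X
  multiplicative : IsMultiplicative F

/-- The class `x` lies in the subspace `F^m CH^*(X)` of the Chow ring `CH^*(X)`. -/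
def InTotal (F : Filtration C) (m : ℕ) {X : 𝒱.Obj} (x : C.A X) : Prop := x ∈ ⨆ i, F.F X i m

/-- The correspondence `Γ` induces, for all `T`, maps
`Gr_F^m CH^i(T × X) → Gr_F^m CH^i(T × Y)`, `[x] ↦ [(id_T × Γ)_* x]`, which together are a unital
homomorphism of bigraded rings. (Here `(id_T × Γ)_* x` is the composition `comp C x Γ` of `Γ` and
the correspondence `x` from `T` to `X`.) -/
structure InducesGrHom (F : Filtration C) {X Y : 𝒱.Obj} (Γ : C.A (X.prod Y)) : Prop where
  map : ∀ (T : 𝒱.Obj) (i m : ℕ) (x : C.A (T.prod X)), F.Mem i m x → F.Mem i m (comp C x Γ)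
  one : ∀ T : 𝒱.Obj, comp C (const C (T.prod X) 1) Γ = const C (T.prod Y) 1
  mul : ∀ (T : 𝒱.Obj) (i j m n : ℕ) (x y : C.A (T.prod X)), F.Mem i m x → F.Mem j n y →
    F.Mem (i + j) (m + n + 1) (sub C (comp C (C.mul x y) Γ) (C.mul (comp C x Γ) (comp C y Γ)))

/-- The correspondence `Γ'` is left inverse to `Γ` modulo the `k`-th step of the filtration: for all
`x` in `F^m CH^i(T × X)` the classes `(id_T × Γ')_* (id_T × Γ)_* x` and `x` are equal modulo
`F^(m+k)`. (For `T = X`, `m = 0` and `x = [Δ_X]` this is `Γ' ∘ Γ = [Δ_X]` modulo `F^k`.) -/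
def IsLeftInverse (F : Filtration C) (k : ℕ) {X Y : 𝒱.Obj} (Γ : C.A (X.prod Y))
    (Γ' : C.A (Y.prod X)) : Prop :=
  ∀ (T : 𝒱.Obj) (i m : ℕ) (x : C.A (T.prod X)), F.Mem i m x →
    F.Mem i (m + k) (sub C (comp C (comp C x Γ) Γ') x)

/-- The correspondence `s` of mixed degrees maps `F^m CH^*(T × X)` to `F^m CH^*(T × Y)` and induces
the same maps as `Γ` on the associated graded rings. -/
structure SameGr (F : Filtration C) {X Y : 𝒱.Obj} (s Γ : C.A (X.prod Y)) : Prop where
  map : ∀ (T : 𝒱.Obj) (m : ℕ) (x : C.A (T.prod X)), InTotal F m x → InTotal F m (comp C x s)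
  same : ∀ (T : 𝒱.Obj) (m : ℕ) (x : C.A (T.prod X)), InTotal F m x →
    InTotal F (m + 1) (sub C (comp C x s) (comp C x Γ))

/-- The correspondences `Z` and `Z'` (of degree zero) are inverse to each other modulo the `k`-th
step of the filtration `F`. They and the mutually inverse classes `s` and `s'` of mixed degrees
induce, on the rings associated to `F`, the same homomorphisms of bigraded rings between
`Gr_F CH^*(T × X)` and `Gr_F CH^*(T × Y)` for all `T`. -/
structure IsGrIso (F : Filtration C) (k : ℕ) {X Y : 𝒱.Obj} (Z s : C.A (X.prod Y))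
    (Z' s' : C.A (Y.prod X)) : Prop where
  hom : InducesGrHom F Z
  hom' : InducesGrHom F Z'
  left : IsLeftInverse F k Z Z'
  right : IsLeftInverse F k Z' Z
  same : SameGr F s Z
  same' : SameGr F s' Z'

end Run7.h158.St
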