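import Pool.Agent.Run7.h158.St.Sub

/-!
# Nilpotence and similitudes: definitions
-/

open CategoryTheory AlgebraicGeometry

namespace Run7.h158.St

open Pool.Agent.H914 Pool.Agent.H914.VarClass Pool.Agent.H914.VarClass.Obj Pool.Agent.W492.BB

variable {𝒱 : VarClass ℂ} {C : TheoryData.{0, 0, 0} 𝒱 ℚ} {X Y : 𝒱.Obj}

/-- The homologically trivial self-correspondences `z` (of all degrees) of `X` are nilpotent: the
powers `p 0 = [Δ_X]`, `p (k + 1) = z ∘ p k` vanish from some point on. -/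
def HomNil (H : WeilTheoryData.{0, 0, 0} C ℂ) (X : 𝒱.Obj) : Prop :=
  ∀ z : C.A (X.prod X), cl H z = zero H.toTheoryData (X.prod X) → ∀ p : ℕ → C.A (X.prod X),
    p 0 = dg C X → (∀ k, p (k + 1) = comp C (p k) z) → ∃ k, p k = zero C (X.prod X)

/-- The correspondence `Z` of degree zero induces `G`, and `[Z^t] ∘ [Z] = d [Δ_X]`,
`[Z] ∘ [Z^t] = d [Δ_Y]`. -/
structure IsSimilitude (H : WeilTheoryData.{0, 0, 0} C ℂ) (G : H.A X → H.A Y) (d : ℚ)
    (Z : C.A (X.prod Y)) : Prop where
  induces : Induces H G Z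
  left : comp C Z (tp C Z) = smul C d (dg C X)
  right : comp C (tp C Z) Z = smul C d (dg C Y)

/-- The correspondence `Z` respects the cup-product modulo homological equivalence: the cycles
`[Z] ∘ [δ_X]` and `[δ_Y] ∘ ([Z] ⊗ [Z])` on `(X × X) × Y` are homologically equivalent. -/
def RespectsCupHom (H : WeilTheoryData.{0, 0, 0} C ℂ) (Z : C.A (X.prod Y)) : Prop :=
  cl H (comp C (smallDiag C X) Z) = cl H (comp C (tens C Z Z) (smallDiag C Y))

end Run7.h158.St
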