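import Pool.Agent.Run7.h158.St.Sub

/-!
# Systems of good correspondences: definitions
-/

open CategoryTheory AlgebraicGeometry

namespace Run7.h158.St

open Pool.Agent.H914 Pool.Agent.H914.VarClass Pool.Agent.H914.VarClass.Obj Pool.Agent.W492.BB

variable {𝒱 : VarClass ℂ} {C : TheoryData.{0, 0, 0} 𝒱 ℚ} {X Y : 𝒱.Obj}

/-- A system of *good* correspondences: graded subspaces `Q P R` of the Chow groups of the products
`P × R`, closed under compositions and external products of correspondences. -/
structure GoodSystem (C : TheoryData.{0, 0, 0} 𝒱 ℚ) where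
  /-- the good correspondences from `P` to `R` -/
  Q : ∀ P R : 𝒱.Obj, C.A (P.prod R) → Prop
  graded : ∀ P R : 𝒱.Obj, IsGradedSubspace C (Q P R)
  comp : ∀ {P R S : 𝒱.Obj} (a : C.A (P.prod R)) (b : C.A (R.prod S)), Q P R a → Q R S b →
    Q P S (St.comp C a b)
  tens : ∀ {P R P' R' : 𝒱.Obj} (a : C.A (P.prod R)) (b : C.A (P'.prod R')), Q P R a →
    Q P' R' b → Q (P.prod P') (R.prod R') (St.tens C a b)

/-- The diagonal and the small diagonal of `X` and the self-correspondences `x ↦ D · x`, for all
divisors `D` on `X`, are good. -/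
structure IsGood (𝒬 : GoodSystem C) (X : 𝒱.Obj) : Prop where
  dg : 𝒬.Q X X (St.dg C X)
  small : 𝒬.Q (X.prod X) X (smallDiag C X)
  div : ∀ D : C.A X, C.Deg 1 D → 𝒬.Q X X (dgOf C D)

end Run7.h158.St
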