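import Pool.Agent.Run7.h158.St.Base

/-!
# Multiplicative distinguished markings: definitions
-/

open CategoryTheory AlgebraicGeometry

namespace Run7.h158.St

open Pool.Agent.H914 Pool.Agent.H914.VarClass Pool.Agent.H914.VarClass.Obj Pool.Agent.W492.BB

variable {𝒱 : VarClass ℂ} {C : TheoryData.{0, 0, 0} 𝒱 ℚ}

/-- A system of distinguished cycles. For some varieties `P` there are structures `p : S P` (for
example, of an abelian variety with origin), with products, and for every such structure there is a
subspace `D p` of the Chow group of `P`, of the *distinguished* cycles, such that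

* the distinguished cycles on the products `P × Q` are closed under composition and external
  products of correspondences,
* every cycle is homologically equivalent to one and only one distinguished cycle, which is
  homogeneous of codimension `i` if the cycle is.

The symmetrically distinguished cycles on abelian varieties (O'Sullivan) are such a system. -/
structure DistinguishedSystem (H : WeilTheoryData.{0, 0, 0} C ℂ) where
  /-- the structures on the variety `P` -/
  S : 𝒱.Obj → Type
  /-- the product of structures -/
  prod : ∀ {P Q : 𝒱.Obj}, S P → S Q → S (P.prod Q)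
  /-- the distinguished cycles -/
  D : ∀ {P : 𝒱.Obj}, S P → C.A P → Prop
  zero : ∀ {P : 𝒱.Obj} (p : S P), D p (St.zero C P)
  add : ∀ {P : 𝒱.Obj} (p : S P) (a b : C.A P), D p a → D p b → D p (St.add C a b)
  smul : ∀ {P : 𝒱.Obj} (p : S P) (q : ℚ) (a : C.A P), D p a → D p (St.smul C q a)
  comp : ∀ {P Q R : 𝒱.Obj} (p : S P) (q : S Q) (r : S R) (a : C.A (P.prod Q))
    (b : C.A (Q.prod R)), D (prod p q) a → D (prod q r) b → D (prod p r) (St.comp C a b)
  tens : ∀ {P Q P' Q' : 𝒱.Obj} (p : S P) (q : S Q) (p' : S P') (q' : S Q') (a : C.A (P.prod Q))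
    (b : C.A (P'.prod Q')), D (prod p q) a → D (prod p' q') b →
      D (prod (prod p p') (prod q q')) (St.tens C a b)
  unique : ∀ {P : 𝒱.Obj} (p : S P) (z : C.A P), D p z → cl H z = St.zero H.toTheoryData P →
    z = St.zero C P
  exist : ∀ {P : 𝒱.Obj} (p : S P) (i : ℤ) (z : C.A P), C.Deg i z →
    ∃ z' : C.A P, D p z' ∧ C.Deg i z' ∧ cl H z' = cl H z

/-- The variety `X` has a multiplicative marking: its Chow motive is presented as a direct factor of
a sum of Tate twists of motives of varieties `P_1, …, P_m` with structures, by correspondences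
`a_i` from `X` to `P_i` and `b_i` from `P_i` to `X` with `∑ b_i ∘ a_i = [Δ_X]`, such that

* the correspondences `a_j ∘ b_i` from `P_i` to `P_j` are distinguished: the direct factor is defined
  by a distinguished projector (this is the condition (⋆) of Fu and Vial),
* the small diagonal of `X` is distinguished with respect to the marking: the correspondences
  `a_k ∘ [δ_X] ∘ (b_i ⊗ b_j)` from `P_i × P_j` to `P_k` are distinguished (the condition
  (⋆_Mult)). -/
def HasMultiplicativeMarking {H : WeilTheoryData.{0, 0, 0} C ℂ} (𝒟 : DistinguishedSystem H)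
    (X : 𝒱.Obj) : Prop :=
  ∃ (m : ℕ) (P : Fin m → 𝒱.Obj) (p : ∀ i, 𝒟.S (P i)) (t : Fin m → ℤ)
    (a : ∀ i, C.A (X.prod (P i))) (b : ∀ i, C.A ((P i).prod X)),
    (∀ i, C.Deg ((X.dim : ℤ) + t i) (a i)) ∧ (∀ i, C.Deg (((P i).dim : ℤ) - t i) (b i)) ∧
    sum C (fun i => comp C (a i) (b i)) = dg C X ∧
    (∀ i j, 𝒟.D (𝒟.prod (p i) (p j)) (comp C (b i) (a j))) ∧
    ∀ i j k, 𝒟.D (𝒟.prod (𝒟.prod (p i) (p j)) (p k))
      (comp C (comp C (tens C (b i) (b j)) (smallDiag C X)) (a k))

end Run7.h158.St
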