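import Pool.Agent.Run7.h158.St.Sub

/-!
# Products of divisors: definitions
-/

open CategoryTheory AlgebraicGeometry

namespace Run7.h158.St

open Pool.Agent.H914 Pool.Agent.H914.VarClass Pool.Agent.H914.VarClass.Obj Pool.Agent.W492.BB

variable {𝒱 : VarClass ℂ} {C : TheoryData.{0, 0, 0} 𝒱 ℚ} {X : 𝒱.Obj}

/-- The class `x` is a linear combination of classes `h^(2e) D^f`, for divisors `D` and
`e + f ≤ n`. (These are the linear combinations of the products of at most `n` divisors and of the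
products of `h^(2e)` and `n - e` divisors.) -/
def LefDiv (C : TheoryData.{0, 0, 0} 𝒱 ℚ) (n : ℕ) {X : 𝒱.Obj} (h x : C.A X) : Prop :=
  ∃ (m : ℕ) (q : Fin m → ℚ) (D : Fin m → C.A X) (e f : Fin m → ℕ),
    (∀ j, C.Deg 1 (D j) ∧ e j + f j ≤ n) ∧
    x = sum C fun j => smul C (q j) (C.mul (pow C h (2 * e j)) (pow C (D j) (f j)))

end Run7.h158.St
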