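import Mathlib

/-!
# The cohomology of hyper-Kähler varieties: definitions
-/

namespace Run7.h158.St

variable {A V : Type} [Ring A] [Algebra ℂ A] [AddCommGroup V] [Module ℂ V]
variable {B U : Type} [Ring B] [Algebra ℂ B] [AddCommGroup U] [Module ℂ U]

/-- The endomorphism `a` of the extended Mukai space `ℂ ⊕ V ⊕ ℂ` is skew for the form
`⟨(r, v, t), (r', v', t')⟩ = q(v, v') - r t' - t r'`. -/
def Skew (q : V →ₗ[ℂ] V →ₗ[ℂ] ℂ) (a : Module.End ℂ (ℂ × V × ℂ)) : Prop :=
  ∀ x y, q (a x).2.1 y.2.1 - (a x).1 * y.2.2 - (a x).2.2 * y.1 =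
    -(q x.2.1 (a y).2.1 - x.1 * (a y).2.2 - x.2.2 * (a y).1)

/-- The data attached to the cohomology `A = H^*(X, ℂ)`, `V = H²(X, ℂ)`, of a hyper-Kähler
variety. -/
structure Coh (A V : Type) [Ring A] [Algebra ℂ A] [AddCommGroup V] [Module ℂ V] where
  /-- the total Betti number -/
  m : ℕ
  /-- a homogeneous basis of `H^*(X, ℚ)` -/
  b : Module.Basis (Fin m) ℂ A
  /-- the degrees of the basis vectors -/
  d : Fin m → ℕ
  /-- the inclusion `H²(X, ℂ) ⊂ H^*(X, ℂ)` -/
  i : V →ₗ[ℂ] A
  /-- the Beauville-Bogomolov-Fujiki form -/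
  q : V →ₗ[ℂ] V →ₗ[ℂ] ℂ
  /-- the Fujiki constant -/
  c : ℚ
  /-- the Looijenga-Lunts-Verbitsky representation of the orthogonal Lie algebra of the extended
  Mukai space; only its values on skew endomorphisms matter -/
  rho : Module.End ℂ (ℂ × V × ℂ) →ₗ[ℂ] Module.End ℂ A
  /-- the class of a holomorphic symplectic form -/
  s : V
  /-- its complex conjugate -/
  s' : V
  /-- an ample class -/
  l : V
  /-- the Hodge operator, which acts on `H^(p,q)(X)` as multiplication by `p - q` -/
  eta : A → A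
  /-- the contraction with the dual bivector of the symplectic form -/
  f : A → A

/-- The coordinates in the basis of `H^*(X, ℚ)`. -/
noncomputable def Coh.coord (K : Coh A V) (x : A) (j : Fin K.m) : ℂ := K.b.repr x j

/-- The rational classes. -/
def Coh.IsRat (K : Coh A V) (x : A) : Prop := ∀ j, ∃ r : ℚ, K.coord x j = r

/-- The known properties of the cohomology of a projective hyper-Kähler variety of dimension `2n`,
where `deg k x` means that `x` has degree `k` and `int` is the integration over `X`. -/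
structure Coh.IsHK (K : Coh A V) (n : ℕ) (deg : ℕ → A → Prop) (int : A → ℂ) : Prop where
  n_pos : 0 < n
  deg_iff : ∀ k x, deg k x ↔ ∀ j, K.d j ≠ k → K.coord x j = 0
  mul_rat : ∀ x y, K.IsRat x → K.IsRat y → K.IsRat (x * y)
  comm : ∀ i j x y, deg i x → deg j y → x * y = (-1 : ℂ) ^ (i * j) • (y * x)
  int_rat : ∀ x, K.IsRat x → ∃ r : ℚ, int x = r
  i_inj : Function.Injective K.i
  i_range : ∀ x, deg 2 x ↔ ∃ v, K.i v = x
  q_symm : ∀ x y, K.q x y = K.q y x
  q_nondeg : ∀ x, (∀ y, K.q x y = 0) → x = 0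
  q_rat : ∀ x y, K.IsRat (K.i x) → K.IsRat (K.i y) → ∃ r : ℚ, K.q x y = r
  c_ne : K.c ≠ 0
  /-- the Fujiki relation -/
  fujiki : ∀ x, int (K.i x ^ (2 * n)) = K.c * K.q x x ^ n
  /-- `rho` is a representation -/
  rho_lie : ∀ a a', Skew K.q a → Skew K.q a' → ∀ x,
    K.rho (a * a' - a' * a) x = K.rho a (K.rho a' x) - K.rho a' (K.rho a x)
  /-- the Lefschetz operators -/
  rho_e : ∀ a y, (∀ r v t, a (r, v, t) = (0, r • y, K.q y v)) → ∀ x, K.rho a x = K.i y * x
  /-- the degree operator -/
  rho_h : ∀ a, (∀ r v t, a (r, v, t) = (-2 * r, 0, 2 * t)) → ∀ k x, deg k x →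
    K.rho a x = ((k : ℂ) - 2 * n) • x
  /-- the skew endomorphisms of `H²` act as derivations -/
  rho_s : ∀ a, Skew K.q a → ∀ g : V → V, (∀ r v t, a (r, v, t) = (0, g v, 0)) →
    ∀ x y, K.rho a (x * y) = K.rho a x * y + x * K.rho a y
  /-- the dual Lefschetz operators are rational -/
  rho_rat : ∀ a y, (∀ r v t, a (r, v, t) = (2 * K.q y v, (2 * t) • y, 0)) → K.IsRat (K.i y) →
    ∀ x, K.IsRat x → K.IsRat (K.rho a x)
  /-- the Hodge operator comes from the representation -/
  rho_eta : ∀ a, (∀ r v t, a (r, v, t) = (0, K.q K.s' v • K.s - K.q K.s v • K.s', 0)) →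
    ∀ x, K.rho a x = (K.q K.s K.s' / 2) • K.eta x
  /-- the dual holomorphic Lefschetz operator -/
  rho_f : ∀ a, (∀ r v t, a (r, v, t) =
    (K.q K.s' v / K.q K.s K.s', (t / K.q K.s K.s') • K.s', 0)) → ∀ x, K.rho a x = K.f x
  s_s : K.q K.s K.s = 0
  s'_s' : K.q K.s' K.s' = 0
  s_s' : K.q K.s K.s' ≠ 0
  l_rat : K.IsRat (K.i K.l)
  l_s : K.q K.l K.s = 0
  l_s' : K.q K.l K.s' = 0
  l_l : K.q K.l K.l ≠ 0
  /-- the Hodge index theorem -/
  index : ∀ v, K.IsRat (K.i v) → K.q v K.s = 0 → K.q v K.s' = 0 → K.q K.l v = 0 → K.q v v = 0 →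
    v = 0

/-- The classes `cl z` of the cycles `z` in the cohomology of a hyper-Kähler variety are rational and
of type `(p, p)`, the rational classes of type `(1, 1)` are the classes of divisors (Lefschetz), and
the homologically trivial divisors are zero (modulo rational equivalence, with rational
coefficients; `o` is the zero class). -/
structure Coh.IsLinked (K : Coh A V) {R : Type} (cl : R → A) (div : R → Prop) (o : R) : Prop where
  rat : ∀ z, K.IsRat (cl z)
  hodge : ∀ z, K.eta (cl z) = 0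
  lefschetz : ∀ x : V, K.IsRat (K.i x) → K.q x K.s = 0 → K.q x K.s' = 0 →
    ∃ D : R, div D ∧ cl D = K.i x
  pic : ∀ D : R, div D → cl D = 0 → D = o

/-- The exponential `∑ f^k / k!`, where `f^(2n + 1) = 0`. -/
noncomputable def expo (n : ℕ) (f : A → A) (x : A) : A :=
  ∑ k ∈ Finset.range (2 * n + 1), ((k.factorial : ℂ)⁻¹) • f^[k] x

/-- The contraction with a polyvector field on `X` of dimension `2n`; the polyvector fields are
identified with the classes `y` by means of the symplectic form. It is the conjugate of the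
multiplication with `y` by the Weyl element `exp(e) exp(-f) exp(e)`, where `e` is the
multiplication with the class of the symplectic form. -/
noncomputable def Coh.poly (n : ℕ) (K : Coh A V) (y x : A) : A :=
  expo n (fun z => K.i K.s * z) (expo n (fun z => -K.f z) (expo n (fun z => K.i K.s * z)
    (y * expo n (fun z => -(K.i K.s * z)) (expo n K.f (expo n (fun z => -(K.i K.s * z)) x)))))

/-- The Mukai pairing `∫ x^∨ y`, where `x^∨ = ∑ (√-1)^k x_k`. -/
noncomputable def Coh.mukai (K : Coh A V) (int : A → ℂ) (x y : A) : ℂ :=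
  ∑ j, K.coord x j * Complex.I ^ K.d j * int (K.b j * y)

/-- The known properties of the isomorphism `Φ` of the cohomology defined by the kernel of a derived
equivalence of hyper-Kähler varieties of dimension `2n`: it respects the rational classes, commutes
with the Hodge operators, conjugates the contractions with polyvector fields to such contractions
(Calaque, Rossi, Van den Bergh) and is an isometry for the Mukai pairings (Caldararu). -/
structure IsDerived (n : ℕ) (K : Coh A V) (L : Coh B U) (intA : A → ℂ) (intB : B → ℂ)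
    (Φ : A → B) : Prop where
  rat : ∀ x, K.IsRat x ↔ L.IsRat (Φ x)
  hodge : ∀ x, Φ (K.eta x) = L.eta (Φ x)
  poly : ∀ y, ∃ y', ∀ x, Φ (K.poly n y x) = L.poly n y' (Φ x)
  isometry : ∀ x y, L.mukai intB (Φ x) (Φ y) = K.mukai intA x y

/-- The map `G` is an isomorphism of graded `ℂ`-algebras, which respects the rational classes and
the Hodge structures. -/
structure IsHodgeIso (K : Coh A V) (L : Coh B U) (degA : ℕ → A → Prop) (degB : ℕ → B → Prop)
    (G : A → B) : Prop where
  bijective : Function.Bijective G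
  add : ∀ x y, G (x + y) = G x + G y
  smul : ∀ (c : ℂ) (x : A), G (c • x) = c • G x
  one : G 1 = 1
  mul : ∀ x y, G (x * y) = G x * G y
  deg : ∀ k x, degA k x ↔ degB k (G x)
  rat : ∀ x, K.IsRat x ↔ L.IsRat (G x)
  hodge : ∀ x, G (K.eta x) = L.eta (G x)

end Run7.h158.St
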