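import Pool.Agent.W492.BB.Defs
import Pool.Agent.Run7.h158.St.HK

/-!
# Derived equivalent hyper-Kähler varieties and their Chow groups: definitions
-/

open CategoryTheory AlgebraicGeometry

namespace Run7.h158.St

open Pool.Agent.H914 Pool.Agent.H914.VarClass Pool.Agent.H914.VarClass.Obj Pool.Agent.W492.BB

variable {𝒱 : VarClass ℂ}

section theory

variable {F : Type} [Field F] (T : TheoryData.{0, 0, 0} 𝒱 F) {X Y Z W : 𝒱.Obj}

/-- The class `0` on `X`. -/
def zero (X : 𝒱.Obj) : T.A X := 0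

/-- The class `q · 1` on `X`, a multiple of the fundamental class. -/
def const (X : 𝒱.Obj) (q : F) : T.A X := q • 1

/-- The sum of two classes. -/
def add (a b : T.A X) : T.A X := a + b

/-- The difference of two classes. -/
def sub (a b : T.A X) : T.A X := a - b

/-- The multiple `q · a` of a class. -/
def smul (q : F) (a : T.A X) : T.A X := q • a

/-- The power `a ^ m` of a class. -/
def pow (a : T.A X) (m : ℕ) : T.A X := a ^ m

/-- The sum of a finite family of classes. -/
def sum {m : ℕ} (a : Fin m → T.A X) : T.A X := ∑ i, a i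

/-- The external product `a × b`. -/
noncomputable def ext (a : T.A X) (b : T.A Y) : T.A (X.prod Y) :=
  T.mul (T.up (fst X Y) a) (T.up (snd X Y) b)

/-- The composition of correspondences: `Γ` from `X` to `Y` followed by `Δ` from `Y` to `Z`. -/
noncomputable def comp (Γ : T.A (X.prod Y)) (Δ : T.A (Y.prod Z)) : T.A (X.prod Z) :=
  T.down (prodMap (fst X Y) (𝟙 Z))
    (T.mul (T.up (prodMap (snd X Y) (𝟙 Z)) Δ) (T.up (fst (X.prod Y) Z) Γ))

/-- The class on `X × X` which is the image of the class `D` under the diagonal embedding: the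
correspondence `x ↦ D · x`. -/
noncomputable def dgOf (D : T.A X) : T.A (X.prod X) := T.down (Obj.lift (𝟙 X) (𝟙 X)) D

/-- The class of the diagonal of `X`. -/
noncomputable def dg (X : 𝒱.Obj) : T.A (X.prod X) := dgOf T (const T X 1)

/-- The class of the small diagonal `{(x, x, x)}` of `X × X × X`, as a correspondence from `X × X`
to `X`. -/
noncomputable def smallDiag (X : 𝒱.Obj) : T.A ((X.prod X).prod X) :=
  T.down (Obj.lift (Obj.lift (𝟙 X) (𝟙 X)) (𝟙 X)) (const T X 1)

/-- The external product `Γ ⊗ Δ` of correspondences, from `X × Z` to `Y × W`. -/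
noncomputable def tens (Γ : T.A (X.prod Y)) (Δ : T.A (Z.prod W)) :
    T.A ((X.prod Z).prod (Y.prod W)) :=
  T.mul (T.up (prodMap (fst X Z) (fst Y W)) Γ) (T.up (prodMap (snd X Z) (snd Y W)) Δ)

/-- The transpose of a correspondence. -/
noncomputable def tp (Γ : T.A (X.prod Y)) : T.A (Y.prod X) :=
  T.up (Obj.lift (snd Y X) (fst Y X)) Γ

/-- The class `x` has degree `q`: for all `Y` the push-forward of `x × Y` to `Y` is `q` times the
fundamental class of `Y`. -/
def HasDeg (x : T.A X) (q : F) : Prop :=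
  ∀ Y : 𝒱.Obj, T.down (snd X Y) (T.up (fst X Y) x) = const T Y q ∧
    T.down (fst Y X) (T.up (snd Y X) x) = const T Y q

end theory

/-- The formal properties of the Chow groups with rational coefficients of smooth projective
varieties: `C.A X` is the Chow ring of `X`, with its pull-backs, push-forwards and grading by the
codimension. -/
structure IsChowTheory (C : TheoryData.{0, 0, 0} 𝒱 ℚ) : Prop where
  isTheory : IsTheory C 1
  mul_comm : ∀ {X : 𝒱.Obj} (a b : C.A X), C.mul a b = C.mul b a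
  point : ∀ X : 𝒱.Obj, ∃ a : C.A X, C.Deg X.dim a ∧ HasDeg C a 1
  iso : ∀ {X Y : 𝒱.Obj} (f : X ⟶ Y) (g : Y ⟶ X), f ≫ g = 𝟙 X → g ≫ f = 𝟙 Y →
    C.down f (const C X 1) = const C Y 1
  gr_zero : ∀ (X : 𝒱.Obj) (x : C.A X), C.Deg 0 x → ∃ q : ℚ, x = const C X q
  gr_top : ∀ (X : 𝒱.Obj) (i : ℤ) (x : C.A X), C.Deg i x → (X.dim : ℤ) < i → x = zero C X
  degree : ∀ (X : 𝒱.Obj) (x : C.A X), C.Deg X.dim x → ∃ q : ℚ, HasDeg C x q
  polarized : ∀ X : 𝒱.Obj, ∃ h : C.A X, C.Deg 1 h ∧ ∃ q : ℚ, q ≠ 0 ∧
    C.down (snd X X) (C.up (fst X X) (pow C h X.dim)) = const C X q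

variable {C : TheoryData.{0, 0, 0} 𝒱 ℚ} (H : WeilTheoryData.{0, 0, 0} C ℂ) {X Y Z W : 𝒱.Obj}

/-- The class in `H^*(X)` of a cycle. -/
noncomputable def cl (z : C.A X) : H.A X := H.cl z

/-- The orientation `H^*(X) → ℂ`. -/
noncomputable def tr (a : H.A X) : ℂ := H.tr X a

/-- The action on the cohomology of a correspondence. -/
noncomputable def act (Γ : C.A (X.prod Y)) (a : H.A X) : H.A Y := H.act (cl H Γ) a

/-- `H` is a Weil cohomology theory with coefficients in `ℂ`: graded rings `H.A X = H^*(X)` with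
pull-backs and push-forwards, Poincaré duality, the Künneth formula and cycle class maps. (Tate
twists are suppressed.) -/
structure IsWeilTheory : Prop where
  isTheory : IsTheory H.toTheoryData 2
  tr_push : ∀ {X Y : 𝒱.Obj} (f : X ⟶ Y) (a : H.A X), tr H (H.down f a) = tr H a
  nondeg : ∀ {X : 𝒱.Obj} (a : H.A X), (∀ b, tr H (H.mul a b) = 0) → a = zero H.toTheoryData X
  kunneth : ∀ (X Y : 𝒱.Obj) (i : ℤ) (c : H.A (X.prod Y)), H.Deg i c →
    ∃ (m : ℕ) (l : Fin m → ℤ) (a : Fin m → H.A X) (b : Fin m → H.A Y),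
      (∀ j, H.Deg (l j) (a j) ∧ H.Deg (i - l j) (b j)) ∧
      c = sum H.toTheoryData fun j => ext H.toTheoryData (a j) (b j)
  cl_mem : ∀ {X : 𝒱.Obj} (i : ℤ) (z : C.A X), C.Deg i z → H.Deg (2 * i) (cl H z)
  cl_pull : ∀ {X Y : 𝒱.Obj} (f : X ⟶ Y) (z : C.A Y), cl H (C.up f z) = H.up f (cl H z)
  cl_push : ∀ {X Y : 𝒱.Obj} (f : X ⟶ Y) (z : C.A X), cl H (C.down f z) = H.down f (cl H z)
  cl_central : ∀ {X : 𝒱.Obj} (z : C.A X) (a : H.A X), H.mul (cl H z) a = H.mul a (cl H z)
  gr_zero : ∀ (X : 𝒱.Obj) (a : H.A X), H.Deg 0 a → ∃ c : ℂ, a = const H.toTheoryData X c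
  one_ne_zero : ∀ X : 𝒱.Obj, const H.toTheoryData X 1 ≠ zero H.toTheoryData X
  tr_eq_zero : ∀ (X : 𝒱.Obj) (i : ℤ) (a : H.A X), H.Deg i a → i ≠ 2 * X.dim → tr H a = 0

/-- The class `a` has degree `k`. -/
def InDegree (k : ℕ) (a : H.A X) : Prop := H.Deg k a

/-- The hyper-Kähler variety `X` of dimension `2n`: the known theorems on its cohomology which are
collected in `Coh`, `Coh.IsHK` and `Coh.IsLinked`, where `V = H²(X, ℂ)`. -/
structure HyperKahler (n : ℕ) (X : 𝒱.Obj) (V : Type) [AddCommGroup V] [Module ℂ V] where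
  /-- the cohomology -/
  coh : Coh (H.A X) V
  dim_eq : X.dim = 2 * n
  isHK : coh.IsHK n (InDegree H) (tr H)
  linked : coh.IsLinked (cl H) (fun z : C.A X => C.Deg 1 z) (zero C X)

/-- An equivalence of the derived categories of the hyper-Kähler varieties `X` and `Y`: the Mukai
vectors `v = ch(E) √td(X × Y)` and `w` of the kernels of the equivalence and of its inverse, as
classes of mixed degrees in the Chow groups with rational coefficients, are inverse to each other
for the composition of correspondences (Mukai, Orlov), and `v` acts on the cohomology as in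
`IsDerived`. -/
structure DerivedEquivalence {n : ℕ} {X Y : 𝒱.Obj} {V U : Type} [AddCommGroup V] [Module ℂ V]
    [AddCommGroup U] [Module ℂ U] (hX : HyperKahler H n X V) (hY : HyperKahler H n Y U) where
  /-- the Mukai vector of the kernel of the equivalence -/
  v : C.A (X.prod Y)
  /-- the Mukai vector of the kernel of the inverse -/
  w : C.A (Y.prod X)
  left : comp C v w = dg C X
  right : comp C w v = dg C Y
  derived : IsDerived n hX.coh hY.coh (tr H) (tr H) (act H v)

/-- The map `G` from `H^*(X)` to `H^*(Y)` is an isomorphism of graded `ℂ`-algebras, which respects the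
rational classes and the Hodge structures. -/
def RespectsHodge {n : ℕ} {X Y : 𝒱.Obj} {V U : Type} [AddCommGroup V] [Module ℂ V]
    [AddCommGroup U] [Module ℂ U] (hX : HyperKahler H n X V) (hY : HyperKahler H n Y U)
    (G : H.A X → H.A Y) : Prop :=
  IsHodgeIso hX.coh hY.coh (InDegree H) (InDegree H) G

/-- The correspondence `Z` from `X` to `Y` respects the cup-product:
`[Z] ∘ [δ_X] = [δ_Y] ∘ ([Z] ⊗ [Z])` in the Chow group of `(X × X) × Y`. (The composition
`comp C Γ Δ` is `Δ ∘ Γ`.) -/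
def RespectsCup (C : TheoryData.{0, 0, 0} 𝒱 ℚ) {X Y : 𝒱.Obj} (Z : C.A (X.prod Y)) : Prop :=
  comp C (smallDiag C X) Z = comp C (tens C Z Z) (smallDiag C Y)

/-- The correspondences `Z` from `X` to `Y` and `Z'` from `Y` to `X`, of degree zero, are inverse to
each other. -/
structure IsChowInverse (C : TheoryData.{0, 0, 0} 𝒱 ℚ) {X Y : 𝒱.Obj} (Z : C.A (X.prod Y))
    (Z' : C.A (Y.prod X)) : Prop where
  deg : C.Deg X.dim Z
  deg' : C.Deg Y.dim Z'
  left : comp C Z Z' = dg C X
  right : comp C Z' Z = dg C Y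

/-- There is an isomorphism of Chow motives `(h(X), ∪) ≃ (h(Y), ∪)` respecting the cup-product:
classes `[Z]` in `CH^(dim X)(X × Y)` and `[Z']` in `CH^(dim Y)(Y × X)`, inverse to each other,
which respect the cup-product. -/
def MultiplicativeIso (C : TheoryData.{0, 0, 0} 𝒱 ℚ) (X Y : 𝒱.Obj) : Prop :=
  ∃ (Z : C.A (X.prod Y)) (Z' : C.A (Y.prod X)), IsChowInverse C Z Z' ∧ RespectsCup C Z

end Run7.h158.St
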